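import Pool.Agent.Helper92.SGE.Goals

/-!
# Project SG (MP_a41896_nt), packet SGE-NUM: the final numbers
-/

set_option autoImplicit false

open Pool.Agent.Helper92.SGE Pool.Agent.Helper42.SG

namespace Pool.Agent.Helper80.SGE

theorem sum_pairs (F : ℕ → ℝ) (n : ℕ) :
    ∑ h ∈ Finset.range (2 * n), F h = ∑ j ∈ Finset.range n, (F (2 * j) + F (2 * j + 1)) := by
  induction n with
  | zero => simp
  | succ n ih =>
    rw [show 2 * (n + 1) = 2 * n + 1 + 1 by ring, Finset.sum_range_succ, Finset.sum_range_succ, ih,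
      Finset.sum_range_succ]
    ring

theorem num : NUM := by
  intro n k0 ε c₀ C hn hε hk0 hc hC
  have hn1 : (1 : ℝ) ≤ n := by exact_mod_cast hn
  obtain ⟨M, hM⟩ : ∃ M : ℝ, M = n * (1.21 * C + 2 * n * c₀ + 2.42 * c₀ + 2 * c₀ +
    0.1815 * (C + 4 * c₀)) := ⟨_, rfl⟩
  have hM0 : 0 ≤ M := by rw [hM]; positivity
  refine ⟨1 + M, by linarith, ?_⟩
  intro θ t e y g hx hw α hθ hθ1 hnθ ht hy hqy hg hx0 hxj hxn hwj hwt hmain
  obtain ⟨K0, hK0⟩ : ∃ K0 : ℝ, K0 = 1 + M := ⟨_, rfl⟩
  rw [← hK0] at ht hy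
  have hK1 : 1 ≤ K0 := by linarith
  have hKpos : 0 < K0 := by linarith
  have htpos : 0 < t := by linarith
  obtain ⟨s, hs⟩ : ∃ s : ℝ, s = t / K0 := ⟨_, rfl⟩
  have hsK : s * K0 = t := by rw [hs]; field_simp
  have hs1 : 1 ≤ s := by rw [hs, le_div_iff₀ hKpos]; linarith
  have hθa : (1 + θ) ^ 2 ≤ 1.21 := by nlinarith
  have hθb : 0.81 ≤ (1 - θ) ^ 2 := by nlinarith
  have hq0 : ∀ j, (0 : ℝ) < 4 ^ e j := fun j => by positivity
  have hqy1 : ∀ j < n, (4 : ℝ) ^ e j * y j ≤ 1.21 * t := fun j hj =>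
    (hqy j hj).2.trans (by nlinarith)
  have hqs : ∀ j < n, (4 : ℝ) ^ e j ≤ 1.21 * s := by
    intro j hj
    have h1 : (4 : ℝ) ^ e j * K0 ≤ 1.21 * s * K0 := by
      have := mul_le_mul_of_nonneg_left (hy j hj) (hq0 j).le
      have h2 := hqy1 j hj
      nlinarith
    exact le_of_mul_le_mul_right h1 hKpos
  have hsq : (sq n e : ℝ) ≤ n * (1.21 * s) := by
    unfold Pool.Agent.Helper42.SG.sq
    push_cast
    calc ∑ j ∈ Finset.range n, (4 : ℝ) ^ e j ≤ ∑ _j ∈ Finset.range n, 1.21 * s :=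
          Finset.sum_le_sum fun j hj => hqs j (Finset.mem_range.1 hj)
      _ = n * (1.21 * s) := by rw [Finset.sum_const, Finset.card_range, nsmul_eq_mul]
  have hsq0 : (0 : ℝ) ≤ sq n e := by positivity
  -- left side
  have hL : 6.48 * (n * t) ≤ ∑ j ∈ Finset.range n, ((k0 : ℝ) * 4 ^ e j) * g j := by
    calc 6.48 * (n * t) = ∑ _j ∈ Finset.range n, 6.48 * t := by
          rw [Finset.sum_const, Finset.card_range, nsmul_eq_mul]; ring
      _ ≤ _ := by
          refine Finset.sum_le_sum fun j hj => ?_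
          have hj' := Finset.mem_range.1 hj
          have h1 := hg j hj'
          have h2 := (hqy j hj').1
          have h3 : 0 < (k0 : ℝ) := by
            by_contra h
            have : (k0 : ℝ) = 0 := le_antisymm (not_lt.1 h) (Nat.cast_nonneg _)
            rw [this, mul_zero] at hk0
            linarith
          have h4 : (k0 : ℝ) * 4 ^ e j * (ε * y j) ≤ (k0 : ℝ) * 4 ^ e j * g j :=
            mul_le_mul_of_nonneg_left h1 (by have := hq0 j; positivity)
          have h5 : 0.81 * t ≤ 4 ^ e j * y j := le_trans (by nlinarith) h2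
          have h6 : 8 * (0.81 * t) ≤ (ε * k0) * (4 ^ e j * y j) :=
            mul_le_mul hk0 h5 (by positivity) (by positivity)
          calc 6.48 * t = 8 * (0.81 * t) := by ring
            _ ≤ (ε * k0) * (4 ^ e j * y j) := h6
            _ = (k0 : ℝ) * 4 ^ e j * (ε * y j) := by ring
            _ ≤ _ := h4
  -- second term
  have hR2 : ∑ h ∈ Finset.range (2 * n), (n * hw h + (4 : ℝ) ^ e (h / 2) * hx h) ≤
      n * t + 2 * n ^ 2 * c₀ + 1.21 * (n * t) + 2 * c₀ * sq n e := by
    rw [sum_pairs]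
    have h1 : ∀ j ∈ Finset.range n, ((n * hw (2 * j) + (4 : ℝ) ^ e (2 * j / 2) * hx (2 * j)) +
        (n * hw (2 * j + 1) + (4 : ℝ) ^ e ((2 * j + 1) / 2) * hx (2 * j + 1))) ≤
        n * (θ ^ 2 * t + 2 * c₀) + (1.21 * t + 2 * c₀ * 4 ^ e j) := by
      intro j hj
      have hj' := Finset.mem_range.1 hj
      have e1 : 2 * j / 2 = j := by omega
      have e2 : (2 * j + 1) / 2 = j := by omega
      rw [e1, e2]
      have h2 := mul_le_mul_of_nonneg_left (hwj j hj') (by positivity : (0 : ℝ) ≤ n)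
      have h3 := mul_le_mul_of_nonneg_left (hxj j hj') (hq0 j).le
      have h4 := hqy1 j hj'
      rw [mul_add] at h2 h3
      rw [mul_add ((4 : ℝ) ^ e j) (y j)] at h3
      linarith
    refine (Finset.sum_le_sum h1).trans ?_
    rw [Finset.sum_add_distrib, Finset.sum_add_distrib, Finset.sum_const, Finset.sum_const,
      Finset.card_range, nsmul_eq_mul, nsmul_eq_mul, ← Finset.mul_sum]
    have h5 : (sq n e : ℝ) = ∑ j ∈ Finset.range n, (4 : ℝ) ^ e j := by
      unfold Pool.Agent.Helper42.SG.sq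
      push_cast
      rfl
    rw [← h5]
    have h6 : (n : ℝ) * (n * (θ ^ 2 * t)) ≤ n * t := by
      have : (n : ℝ) * (n * (θ ^ 2 * t)) = (n * θ ^ 2) * (n * t) := by ring
      rw [this]
      have h7 : (0 : ℝ) ≤ n * t := by positivity
      calc (n * θ ^ 2) * (n * t) ≤ 1 * (n * t) := mul_le_mul_of_nonneg_right hnθ h7
        _ = n * t := one_mul _
    have h8 : (n : ℝ) * (n * (θ ^ 2 * t + 2 * c₀)) = n * (n * (θ ^ 2 * t)) + 2 * n ^ 2 * c₀ := by
      ring
    have h9 : (n : ℝ) * (1.21 * t) = 1.21 * (n * t) := by ring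
    rw [h8, h9]
    linarith
  -- third term
  have hR3 : n * (hx (2 * n) + hx (2 * n + 1)) ≤ n * t + 2 * n * c₀ := by
    have := mul_le_mul_of_nonneg_left hxn (by positivity : (0 : ℝ) ≤ n)
    linarith
  -- last term
  obtain ⟨D, hD⟩ : ∃ D : ℝ, D = 4 ^ n * (3 * n ^ 2) * (2.42 * t + 1.21 * s * (C + 4 * c₀)) :=
    ⟨_, rfl⟩
  have hD0 : 0 < D := by rw [hD]; positivity
  have hdpos : ∀ i : ℕ, (0 : ℝ) < dd n e i := by
    intro i
    unfold dd
    split_ifs
    · have : 0 < n := hn
      positivity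
    · have : 0 < n := hn
      positivity
  have hdi : ∀ i : Fin (2 * n + 2), (dd n e i.val : ℝ) * (C + 2 * hx i.val) ≤ D := by
    intro i
    unfold dd
    split_ifs with hi
    · have hj : i.val / 2 < n := by omega
      have h1 : hx i.val ≤ y (i.val / 2) + 2 * c₀ := by
        have h2 := hxj _ hj
        rcases Nat.even_or_odd' i.val with ⟨m, hm | hm⟩
        · have : i.val / 2 = m := by omega
          rw [this] at h2 ⊢
          rw [hm]
          have := hx0 (2 * m + 1)
          linarith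
        · have : i.val / 2 = m := by omega
          rw [this] at h2 ⊢
          rw [hm]
          have := hx0 (2 * m)
          linarith
      push_cast
      have h3 := hqy1 _ hj
      have h4 := hqs _ hj
      have h5 := hq0 (i.val / 2)
      have h6 : (4 : ℝ) ^ e (i.val / 2) * (C + 2 * hx i.val) ≤
          2.42 * t + 1.21 * s * (C + 4 * c₀) := by
        have h7 : (4 : ℝ) ^ e (i.val / 2) * (C + 2 * hx i.val) ≤
            (4 : ℝ) ^ e (i.val / 2) * (C + 2 * (y (i.val / 2) + 2 * c₀)) :=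
          mul_le_mul_of_nonneg_left (by linarith) h5.le
        have h8 : (4 : ℝ) ^ e (i.val / 2) * (C + 4 * c₀) ≤ 1.21 * s * (C + 4 * c₀) :=
          mul_le_mul_of_nonneg_right h4 (by positivity)
        have h10 : (4 : ℝ) ^ e (i.val / 2) * (C + 2 * (y (i.val / 2) + 2 * c₀)) =
            4 ^ e (i.val / 2) * (C + 4 * c₀) + 2 * (4 ^ e (i.val / 2) * y (i.val / 2)) := by ring
        rw [h10] at h7
        linarith
      have h9 : (0 : ℝ) ≤ 2.42 * t + 1.21 * s * (C + 4 * c₀) := by positivity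
      calc (4 : ℝ) ^ n * (3 * n * 4 ^ e (i.val / 2)) * (C + 2 * hx i.val)
          = 4 ^ n * (3 * n) * ((4 : ℝ) ^ e (i.val / 2) * (C + 2 * hx i.val)) := by ring
        _ ≤ 4 ^ n * (3 * n) * (2.42 * t + 1.21 * s * (C + 4 * c₀)) :=
            mul_le_mul_of_nonneg_left h6 (by positivity)
        _ ≤ 4 ^ n * (3 * n ^ 2) * (2.42 * t + 1.21 * s * (C + 4 * c₀)) := by
            refine mul_le_mul_of_nonneg_right ?_ h9
            refine mul_le_mul_of_nonneg_left ?_ (by positivity)
            have : (n : ℝ) ≤ n ^ 2 := by rw [pow_two]; exact le_mul_of_one_le_left (by linarith) hn1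
            linarith
        _ = D := hD.symm
    · have hi2 : i.val = 2 * n ∨ i.val = 2 * n + 1 := by
        have := i.isLt
        omega
      have h1 : hx i.val ≤ t + 2 * c₀ := by
        rcases hi2 with h | h
        · rw [h]
          have := hx0 (2 * n + 1)
          linarith
        · rw [h]
          have := hx0 (2 * n)
          linarith
      push_cast
      rw [hD]
      refine mul_le_mul_of_nonneg_left ?_ (by positivity)
      have h2 : C + 4 * c₀ ≤ 1.21 * s * (C + 4 * c₀) := by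
        have : 0 ≤ C + 4 * c₀ := by positivity
        nlinarith
      linarith
  have hR4 : ∑ i : Fin (2 * n + 2), (α i : ℝ) * (C + 2 * hx i.val) ≤
      0.363 * (n * t) + 0.1815 * n * (C + 4 * c₀) * s := by
    have h1 : ∑ i : Fin (2 * n + 2), (α i : ℝ) * (C + 2 * hx i.val) ≤
        wt (fun h : Fin (2 * n + 2) => dd n e h.val) α * D := by
      unfold wt
      rw [Finset.sum_mul]
      refine Finset.sum_le_sum fun i _ => ?_
      have hd := hdpos i.val
      have h2 : (α i : ℝ) * (C + 2 * hx i.val) =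
          (α i : ℝ) / (dd n e i.val : ℝ) * ((dd n e i.val : ℝ) * (C + 2 * hx i.val)) := by
        field_simp
      rw [h2]
      exact mul_le_mul_of_nonneg_left (hdi i) (by positivity)
    have h2 : wt (fun h : Fin (2 * n + 2) => dd n e h.val) α * D ≤ 1 / (4 ^ n * (20 * n)) * D :=
      mul_le_mul_of_nonneg_right hwt.le hD0.le
    have hnpos : (0 : ℝ) < n := by linarith
    have h3 : 1 / (4 ^ n * (20 * n)) * D = 0.363 * (n * t) + 0.1815 * n * (C + 4 * c₀) * s := by
      rw [hD]
      field_simp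
      ring
    linarith
  -- together
  have hMs : M * s ≤ n * t := by
    have h1 : M ≤ K0 := by linarith
    have h2 : M * s ≤ K0 * s := mul_le_mul_of_nonneg_right h1 (by linarith)
    have h3 : K0 * s = t := by rw [mul_comm]; exact hsK
    have h4 : t ≤ n * t := by nlinarith
    linarith
  have hMe : M * s = n * (1.21 * C + 2 * n * c₀ + 2.42 * c₀ + 2 * c₀ +
      0.1815 * (C + 4 * c₀)) * s := by rw [hM]
  have a1 : C * sq n e ≤ C * (n * (1.21 * s)) := mul_le_mul_of_nonneg_left hsq hC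
  have a2 : 2 * c₀ * sq n e ≤ 2 * c₀ * (n * (1.21 * s)) :=
    mul_le_mul_of_nonneg_left hsq (by positivity)
  have a3 : 2 * (n : ℝ) ^ 2 * c₀ ≤ 2 * (n : ℝ) ^ 2 * c₀ * s := by
    have : (0 : ℝ) ≤ 2 * (n : ℝ) ^ 2 * c₀ := by positivity
    nlinarith
  have a4 : 2 * (n : ℝ) * c₀ ≤ 2 * (n : ℝ) * c₀ * s := by
    have : (0 : ℝ) ≤ 2 * (n : ℝ) * c₀ := by positivity
    nlinarith
  have a5 : (0 : ℝ) < n * t := by positivity
  have hfin : 6.48 * ((n : ℝ) * t) ≤ 3.573 * (n * t) + M * s := by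
    rw [hMe]
    calc 6.48 * ((n : ℝ) * t) ≤ _ := hL
      _ ≤ _ := hmain
      _ ≤ C * (n * (1.21 * s)) + (n * t + 2 * n ^ 2 * c₀ * s + 1.21 * (n * t) +
            2 * c₀ * (n * (1.21 * s))) + (n * t + 2 * n * c₀ * s) +
          (0.363 * (n * t) + 0.1815 * n * (C + 4 * c₀) * s) := by linarith
      _ = _ := by ring
  linarith

end Pool.Agent.Helper80.SGE
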